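import Pool.Agent.H343.QF.StQ

set_option autoImplicit false

/-! # MP_9a852a_al, R1 : the axis of a relator is a corner path -/

namespace Pool.Agent.H603.QF

open Pool.Agent.H343.QF Pool.Agent.TH68 Pool.Agent.Helper97.Hyp Pool.Agent.H343.AN

section

variable {Γ : Type} [Group Γ]

/-- the two cases for the successor of an index -/
lemma idx (n : ℕ) (j : ℤ) :
    ∃ (q : ℤ) (t : ℕ), t ≤ n ∧ j / ((n : ℤ) + 1) = q ∧ j % ((n : ℤ) + 1) = (t : ℤ) ∧
      ((t < n ∧ (j + 1) / ((n : ℤ) + 1) = q ∧ (j + 1) % ((n : ℤ) + 1) = ((t + 1 : ℕ) : ℤ)) ∨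
       (t = n ∧ (j + 1) / ((n : ℤ) + 1) = q + 1 ∧ (j + 1) % ((n : ℤ) + 1) = ((0 : ℕ) : ℤ))) := by
  have hN : (0 : ℤ) < (n : ℤ) + 1 := by positivity
  have h0 : 0 ≤ j % ((n : ℤ) + 1) := Int.emod_nonneg _ hN.ne'
  have h1 : j % ((n : ℤ) + 1) < (n : ℤ) + 1 := Int.emod_lt_of_pos _ hN
  have h2 : j % ((n : ℤ) + 1) + ((n : ℤ) + 1) * (j / ((n : ℤ) + 1)) = j :=
    Int.emod_add_mul_ediv j ((n : ℤ) + 1)
  obtain ⟨t, ht⟩ := Int.eq_ofNat_of_zero_le h0
  refine ⟨j / ((n : ℤ) + 1), t, ?_, rfl, ht, ?_⟩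
  · have : (t : ℤ) < (n : ℤ) + 1 := by rw [← ht]; exact h1
    omega
  · set q := j / ((n : ℤ) + 1) with hq
    rw [ht] at h2 h1
    have htn : t ≤ n := by omega
    rcases Nat.lt_or_ge t n with h | h
    · left
      have e : j + 1 = ((t : ℤ) + 1) + q * ((n : ℤ) + 1) := by rw [← h2]; ring
      have hb : (0 : ℤ) ≤ (t : ℤ) + 1 := by positivity
      have hb' : (t : ℤ) + 1 < (n : ℤ) + 1 := by omega
      refine ⟨h, ?_, ?_⟩
      · rw [e, Int.add_mul_ediv_right _ _ hN.ne', Int.ediv_eq_zero_of_lt hb hb', zero_add]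
      · rw [e, Int.add_mul_emod_self_right, Int.emod_eq_of_lt hb hb']
        push_cast
        ring
    · right
      have htn' : t = n := le_antisymm htn h
      subst htn'
      have e : j + 1 = 0 + (q + 1) * ((t : ℤ) + 1) := by rw [← h2]; ring
      refine ⟨rfl, ?_, ?_⟩
      · rw [e, Int.add_mul_ediv_right _ _ hN.ne', Int.zero_ediv, zero_add]
      · rw [e, Int.add_mul_emod_self_right, Int.zero_emod]
        rfl

lemma step (a b : Γ) (n E l0 κ : ℕ) (g : Γ) (j : ℤ) :
    Xr a b n E l0 κ g (j + 1) = Xr a b n E l0 κ g j * a ^ lamr n E l0 j * sr b n κ g j := by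
  obtain ⟨q, t, htn, hq, ht, h⟩ := idx n j
  rcases h with ⟨hlt, hq', ht'⟩ | ⟨heq, hq', ht'⟩
  · have e1 : Xr a b n E l0 κ g (j + 1) =
        rho a b n E l0 κ g ^ q * Qp a (b ^ κ) E l0 (t + 1) := by
      unfold Xr
      rw [hq', ht', Int.toNat_natCast]
    have e2 : Xr a b n E l0 κ g j = rho a b n E l0 κ g ^ q * Qp a (b ^ κ) E l0 t := by
      unfold Xr
      rw [hq, ht, Int.toNat_natCast]
    have e3 : lamr n E l0 j = lamt E l0 t := by
      unfold lamr
      rw [ht, Int.toNat_natCast]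
    have e4 : sr b n κ g j = b ^ κ := by
      unfold sr
      rw [ht, if_neg]
      intro h'
      have : t = n := by exact_mod_cast h'
      omega
    rw [e1, e2, e3, e4]
    simp only [Qp, mul_assoc]
  · subst heq
    have e1 : Xr a b t E l0 κ g (j + 1) = rho a b t E l0 κ g ^ (q + 1) := by
      unfold Xr
      rw [hq', ht', Int.toNat_natCast]
      simp only [Qp, mul_one]
    have e2 : Xr a b t E l0 κ g j = rho a b t E l0 κ g ^ q * Qp a (b ^ κ) E l0 t := by
      unfold Xr
      rw [hq, ht, Int.toNat_natCast]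
    have e3 : lamr t E l0 j = lamt E l0 t := by
      unfold lamr
      rw [ht, Int.toNat_natCast]
    have e4 : sr b t κ g j = g := by
      unfold sr
      rw [ht, if_pos rfl]
    rw [e1, e2, e3, e4, zpow_add_one]
    conv_lhs => rw [show rho a b t E l0 κ g ^ q * rho a b t E l0 κ g =
      rho a b t E l0 κ g ^ q * (Qp a (b ^ κ) E l0 t * a ^ lamt E l0 t * g) from rfl]
    simp only [mul_assoc]

lemma period (a b : Γ) (n E l0 κ : ℕ) (g : Γ) (j e : ℤ) :
    Xr a b n E l0 κ g (j + e * ((n : ℤ) + 1)) =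
      rho a b n E l0 κ g ^ e * Xr a b n E l0 κ g j := by
  have hN : (0 : ℤ) < (n : ℤ) + 1 := by positivity
  unfold Xr
  rw [Int.add_mul_ediv_right _ _ hN.ne', Int.add_mul_emod_self_right, add_comm (j / _) e, zpow_add,
    mul_assoc]

end

theorem rcor : S_rcor := by
  intro Γ _ W a b δ D R n E l0 κ g h
  have hg := h.good
  have hb := h.bd
  refine ⟨⟨hg, ⟨step a b n E l0 κ g, ?_, ?_, ?_, ?_⟩, hb.hR, ?_, ?_⟩,
    period a b n E l0 κ g⟩
  · intro j
    obtain ⟨q, t, htn, hq, ht, -⟩ := idx n j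
    unfold lamr
    rw [ht, Int.toNat_natCast]
    unfold lamt
    split_ifs with h0
    · exact hb.lo
    · exact Nat.le_mul_of_pos_left E (Nat.succ_pos t)
  · intro j
    obtain ⟨q, t, htn, hq, ht, -⟩ := idx n j
    unfold lamr
    rw [ht, Int.toNat_natCast]
    unfold lamt LL
    split_ifs with h0
    · exact hb.hi
    · apply Nat.mul_le_mul_right
      omega
  · intro j
    unfold sr
    split_ifs with h0
    · exact hb.hgR
    · have h1 : W.ℓ (b ^ κ) ≤ 2 := by
        rcases hb.hκ with h | h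
        · subst h
          rw [pow_one, hg.lb]
          norm_num
        · subst h
          rw [pow_two]
          have := W.mul_le b b
          rw [hg.lb] at this
          exact this
      have h2 : (W.ℓ (b ^ κ) : ℝ) ≤ 2 := by exact_mod_cast h1
      exact h2.trans hb.hR
  · intro j
    unfold sr
    split_ifs with h0
    · exact hb.hg
    · rintro ⟨k, hk⟩
      have hk' : a ^ k = b ^ κ := hk
      have hκ3 : |(κ : ℤ)| ≤ 3 := by
        rcases hb.hκ with h | h <;> subst h <;> norm_num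
      have hκ0 : (κ : ℤ) ≠ 0 := by
        rcases hb.hκ with h | h <;> subst h <;> norm_num
      apply hg.dc (κ : ℤ) 0 k 0 hκ3 (by norm_num) hκ0
      rw [zpow_natCast, zpow_zero, zpow_zero, mul_one, mul_one, hk']
  · have h1 := hb.hE
    have h2 : (1 : ℝ) ≤ (n : ℝ) := by
      have : 1 ≤ n := le_trans (by norm_num) hb.hn
      exact_mod_cast this
    have h3 : 0 ≤ D + R := by
      have := hg.one
      have := hg.le
      have := hb.hR
      linarith
    have h4 : (D + R) ≤ (n : ℝ) * (D + R) := le_mul_of_one_le_left h3 h2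
    nlinarith
  · unfold LL
    exact Nat.le_mul_of_pos_left E (by positivity)

end Pool.Agent.H603.QF
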